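import Pool.Agent.W929.CB.FibCore

/-!
# The field `E`: algebraic independence
-/

namespace Pool.Agent.W929.CB.Fib

open Pool.Agent.W525.CB

/-- a transcendental element is not a rational function of its `p`-th power -/
lemma notMem_adjoin_pow {K E : Type} [Field K] [Field E] [Algebra K E] {t : E}
    (ht : Transcendental K t) {p : ℕ} (hp : 2 ≤ p) : t ∉ IntermediateField.adjoin K {t ^ p} := by
  intro h
  rw [IntermediateField.mem_adjoin_simple_iff] at h
  obtain ⟨r, s, h⟩ := h
  have h1 : ∀ u : Polynomial K, Polynomial.aeval (t ^ p) u =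
      Polynomial.aeval t (Polynomial.expand K p u) := fun u => by
    rw [Polynomial.expand_aeval]
  rw [h1, h1] at h
  have hinj := transcendental_iff_injective.mp ht
  have ht0 : t ≠ 0 := by
    intro h0
    rw [h0] at ht
    exact ht isAlgebraic_zero
  have hs : Polynomial.aeval t (Polynomial.expand K p s) ≠ 0 := by
    intro h0
    rw [h0, div_zero] at h
    exact ht0 h
  have h2 : Polynomial.aeval t (Polynomial.X * Polynomial.expand K p s) =
      Polynomial.aeval t (Polynomial.expand K p r) := by
    rw [map_mul, Polynomial.aeval_X]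
    nth_rewrite 1 [h]
    rw [div_mul_cancel₀ _ hs]
  have h3 := hinj h2
  have hs0 : Polynomial.expand K p s ≠ 0 := by
    intro h0
    rw [h0, map_zero] at hs
    exact hs rfl
  have h4 := congrArg Polynomial.natDegree h3
  rw [Polynomial.natDegree_mul Polynomial.X_ne_zero hs0, Polynomial.natDegree_X,
    Polynomial.natDegree_expand, Polynomial.natDegree_expand] at h4
  have h5 : (1 + s.natDegree * p) % p = (r.natDegree * p) % p := by rw [h4]
  rw [Nat.add_mul_mod_self_right, Nat.mul_mod_left, Nat.mod_eq_of_lt (by omega)] at h5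
  exact one_ne_zero h5

section

variable {n : ℕ} {k E : Type} [Field k] [Field E]
  [Algebra k E] {x y : Fin (n + 3) → E}

/-- the `y_i` with `2 ≤ i ≤ n + 1` -/
def Y1 (y : Fin (n + 3) → E) (i : Fin n) : E := y i.castSucc.succ.succ

/-- the `x_i` with `1 ≤ i` -/
def Z1 (x : Fin (n + 3) → E) (i : Fin (n + 2)) : E := x i.succ

lemma tang' (h : EDat n k E x y) : x 1 + (∑ i : Fin n, x i.castSucc.succ.succ * Y1 y i ^ (n + 2)) +
    x (Fin.last (n + 2)) * y (Fin.last (n + 2)) ^ (n + 2) = 0 := by
  have h1 := h.dat.tang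
  rw [Fin.sum_univ_succ, Fin.sum_univ_succ, Fin.sum_univ_castSucc] at h1
  have h2 : (0 : Fin (n + 2)).succ = (1 : Fin (n + 3)) := rfl
  have h3 : (Fin.last n).succ.succ = Fin.last (n + 2) := rfl
  rw [h2, h3, h.y0, h.y1] at h1
  rw [zero_pow (by omega), mul_zero, zero_add, one_pow, mul_one] at h1
  rw [← h1]
  unfold Y1
  ring

lemma last_mem (h : EDat n k E x y) (K : IntermediateField k E) (hx : ∀ i, i ≠ 0 → x i ∈ K)
    (hy : ∀ i : Fin n, Y1 y i ∈ K) : y (Fin.last (n + 2)) ^ (n + 2) ∈ K := by
  have h1 := tang' h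
  have hx0 := h.dat.nx (Fin.last (n + 2))
  have h2 : y (Fin.last (n + 2)) ^ (n + 2) =
      -(x 1 + (∑ i : Fin n, x i.castSucc.succ.succ * Y1 y i ^ (n + 2))) / x (Fin.last (n + 2)) := by
    rw [eq_div_iff hx0]
    linear_combination h1
  rw [h2]
  refine K.div_mem (K.neg_mem (K.add_mem (hx _ ?_) (K.sum_mem fun i _ =>
    K.mul_mem (hx _ (Fin.succ_ne_zero _)) (pow_mem (hy i) _)))) (hx _ ?_)
  · exact Fin.succ_ne_zero (0 : Fin (n + 2))
  · exact Fin.last_pos.ne'

lemma x0_mem (h : EDat n k E x y) (K : IntermediateField k E) (hx : ∀ i, i ≠ 0 → x i ∈ K) :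
    x 0 ^ (2 * n + 5) ∈ K := by
  have h1 := h.dat.fermat
  rw [Fin.sum_univ_succ] at h1
  have h2 : x 0 ^ (2 * n + 5) = -∑ i : Fin (n + 2), x i.succ ^ (2 * n + 5) := by
    linear_combination h1
  rw [h2]
  exact K.neg_mem (K.sum_mem fun i _ => pow_mem (hx _ (Fin.succ_ne_zero _)) _)

lemma ycases (h : EDat n k E x y) (P : E → Prop) (h0 : P 0) (h1 : P 1)
    (hY : ∀ i : Fin n, P (Y1 y i)) (hl : P (y (Fin.last (n + 2)))) (i : Fin (n + 3)) : P (y i) := by
  induction i using Fin.cases with
  | zero => rw [h.y0]; exact h0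
  | succ i =>
    induction i using Fin.cases with
    | zero =>
      have : y (0 : Fin (n + 2)).succ = 1 := h.y1
      rw [this]; exact h1
    | succ i =>
      induction i using Fin.lastCases with
      | last => exact hl
      | cast i => exact hY i

lemma ai (h : EDat n k E x y) : AlgebraicIndependent k (Sum.elim (Y1 y) (Z1 x)) := by
  set w := Sum.elim (Y1 y) (Z1 x) with hw
  have halg : Algebra.IsAlgebraic (IntermediateField.adjoin k (Set.range w)) E := by
    set L := IntermediateField.adjoin k (Set.range w) with hL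
    have hwL : ∀ j, w j ∈ L := fun j => IntermediateField.subset_adjoin _ _ ⟨j, rfl⟩
    have hyL : ∀ i : Fin n, Y1 y i ∈ L := fun i => hwL (Sum.inl i)
    have hxL : ∀ i, i ≠ 0 → x i ∈ L := by
      intro i hi
      obtain ⟨j, rfl⟩ := Fin.exists_succ_eq.mpr hi
      exact hwL (Sum.inr j)
    have hLC : ∀ z ∈ L, IsAlgebraic L z := fun z hz => isAlgebraic_algebraMap (⟨z, hz⟩ : L)
    have key : (⊤ : IntermediateField k E) ≤ (algebraicClosure L E).restrictScalars k := by
      rw [← h.gen, IntermediateField.adjoin_le_iff]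
      rintro _ (⟨i, rfl⟩ | ⟨i, rfl⟩)
      · show x i ∈ algebraicClosure L E
        rw [mem_algebraicClosure_iff]
        by_cases hi : i = 0
        · subst hi
          exact IsAlgebraic.of_pow (n := 2 * n + 5) (by omega) (hLC _ (x0_mem h L hxL))
        · exact hLC _ (hxL i hi)
      · show y i ∈ algebraicClosure L E
        rw [mem_algebraicClosure_iff]
        refine ycases h (fun z => IsAlgebraic L z) isAlgebraic_zero isAlgebraic_one
          (fun i => hLC _ (hyL i)) ?_ i
        exact IsAlgebraic.of_pow (n := n + 2) (by omega) (hLC _ (last_mem h L hxL hyL))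
    refine ⟨fun z => ?_⟩
    have h1 : z ∈ (algebraicClosure L E).restrictScalars k := key trivial
    exact mem_algebraicClosure_iff.mp h1
  have halg' : Algebra.IsAlgebraic (Algebra.adjoin k (Set.range w)) E :=
    IntermediateField.isAlgebraic_adjoin_iff_top.mp halg
  have h2 := Algebra.IsAlgebraic.isTranscendenceBasis_of_le_trdeg_of_finite k w (by
    have h3 := h.ind.cardinalMk_le_trdeg
    refine le_trans (le_of_eq ?_) h3
    simp
    norm_cast
    ring_nf)
  exact h2.1


/-- `y_{n+2}` is not a rational function of `x` and the other `y_i` -/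
lemma last_notMem [Fact (n + 2).Prime] [CharP k (n + 2)] (h : EDat n k E x y) :
    y (Fin.last (n + 2)) ∉ IntermediateField.adjoin k (Set.range x ∪ Set.range (Y1 y)) := by
  intro hmem
  have : CharP E (n + 2) := charP_of_injective_algebraMap (algebraMap k E).injective (n + 2)
  set v : Fin (n + 1) ⊕ Fin (n + 1) → E := Sum.elim (fun i : Fin (n + 1) => x i.succ.succ)
    (fun i : Fin (n + 1) => y i.succ.succ) with hv
  set t := y (Fin.last (n + 2)) with ht
  have htv : v (Sum.inr (Fin.last n)) = t := rfl
  set B := IntermediateField.adjoin k (Set.range (Z1 x) ∪ Set.range (Y1 y)) with hB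
  have hxB : ∀ i, i ≠ 0 → x i ∈ B := by
    intro i hi
    obtain ⟨j, rfl⟩ := Fin.exists_succ_eq.mpr hi
    exact IntermediateField.subset_adjoin _ _ (Or.inl ⟨j, rfl⟩)
  have hyB : ∀ i : Fin n, Y1 y i ∈ B := fun i =>
    IntermediateField.subset_adjoin _ _ (Or.inr ⟨i, rfl⟩)
  -- `x_0` is separable over `B`
  have hsep0 : IsSeparable B (x 0) := by
    have hc : x 0 ^ (2 * n + 5) ∈ B := x0_mem h B hxB
    set c : B := ⟨x 0 ^ (2 * n + 5), hc⟩ with hcdef
    have hc0 : c ≠ 0 := by
      intro h0
      have := congrArg (algebraMap B E) h0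
      rw [map_zero] at this
      exact pow_ne_zero _ (h.dat.nx 0) this
    have hq : ((2 * n + 5 : ℕ) : B) ≠ 0 := by
      have : CharP B (n + 2) := charP_of_injective_algebraMap (algebraMap k B).injective (n + 2)
      rw [Ne, CharP.cast_eq_zero_iff B (n + 2)]
      intro hdvd
      have h1 : n + 2 ∣ 1 := by
        have h2 : n + 2 ∣ 2 * (n + 2) := Dvd.intro_left _ rfl
        have h3 : 2 * n + 5 = 2 * (n + 2) + 1 := by ring
        rw [h3] at hdvd
        exact (Nat.dvd_add_right h2).mp hdvd
      have := Nat.le_of_dvd one_pos h1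
      omega
    have h1 : (Polynomial.X ^ (2 * n + 5) - Polynomial.C c).Separable :=
      Polynomial.separable_X_pow_sub_C c hq hc0
    refine Polynomial.Separable.of_dvd h1 (minpoly.dvd _ _ ?_)
    rw [map_sub, map_pow, Polynomial.aeval_X, Polynomial.aeval_C]
    show x 0 ^ (2 * n + 5) - x 0 ^ (2 * n + 5) = 0
    exact sub_self _
  -- so is `t`
  have hsept : IsSeparable B t := by
    have : Algebra.IsSeparable B (IntermediateField.adjoin B {x 0}) :=
      (IntermediateField.isSeparable_adjoin_simple_iff_isSeparable (F := B) (E := E)).mpr hsep0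
    have h1 : IntermediateField.adjoin k (Set.range x ∪ Set.range (Y1 y)) ≤
        (IntermediateField.adjoin B {x 0}).restrictScalars k := by
      rw [IntermediateField.adjoin_le_iff]
      rintro _ (⟨i, rfl⟩ | ⟨i, rfl⟩)
      · show x i ∈ IntermediateField.adjoin B {x 0}
        by_cases hi : i = 0
        · subst hi
          exact IntermediateField.mem_adjoin_simple_self _ _
        · exact (IntermediateField.adjoin B {x 0}).algebraMap_mem ⟨x i, hxB i hi⟩
      · show Y1 y i ∈ IntermediateField.adjoin B {x 0}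
        exact (IntermediateField.adjoin B {x 0}).algebraMap_mem ⟨Y1 y i, hyB i⟩
    have h2 : t ∈ IntermediateField.adjoin B {x 0} := h1 hmem
    exact IntermediateField.isSeparable_of_mem_isSeparable B E h2
  have htB : t ∈ B := by
    have hp : t ^ (n + 2) ∈ B := last_mem h B hxB hyB
    have : CharP B (n + 2) := charP_of_injective_algebraMap (algebraMap k B).injective (n + 2)
    have : ExpChar B (n + 2) := ExpChar.prime Fact.out
    have h1 := IntermediateField.adjoin_simple_eq_adjoin_pow_expChar_of_isSeparable B E hsept (n + 2)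
    have h2 : IntermediateField.adjoin B {t ^ (n + 2)} = ⊥ := by
      rw [IntermediateField.adjoin_simple_eq_bot_iff]
      exact ⟨⟨_, hp⟩, rfl⟩
    rw [h2, IntermediateField.adjoin_simple_eq_bot_iff] at h1
    obtain ⟨b, hb⟩ := h1
    rw [← hb]
    exact b.2
  -- the field `k₀`
  set K0 := IntermediateField.adjoin k (v '' {Sum.inr (Fin.last n)}ᶜ) with hK0
  have htr : Transcendental K0 t := by
    rw [hK0, IntermediateField.transcendental_adjoin_iff, ← htv]
    exact h.ind.transcendental_adjoin (by simp)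
  refine notMem_adjoin_pow htr (p := n + 2) (by omega) ?_
  have hxK : ∀ i : Fin (n + 1), x i.succ.succ ∈ K0 := fun i =>
    IntermediateField.subset_adjoin _ _ ⟨Sum.inl i, by simp, rfl⟩
  have hyK : ∀ i : Fin n, Y1 y i ∈ K0 := fun i =>
    IntermediateField.subset_adjoin _ _ ⟨Sum.inr i.castSucc, by
      simp only [Set.mem_compl_iff, Set.mem_singleton_iff, Sum.inr.injEq]
      exact (Fin.castSucc_lt_last i).ne, rfl⟩
  set K1 := IntermediateField.adjoin K0 {t ^ (n + 2)} with hK1
  have hK01 : ∀ z ∈ K0, z ∈ K1 := fun z hz => K1.algebraMap_mem ⟨z, hz⟩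
  have h1 : B ≤ K1.restrictScalars k := by
    rw [hB, IntermediateField.adjoin_le_iff]
    rintro _ (⟨i, rfl⟩ | ⟨i, rfl⟩)
    · show x i.succ ∈ K1
      induction i using Fin.cases with
      | zero =>
        have h2 := tang' h
        have h3 : x 1 = -((∑ i : Fin n, x i.castSucc.succ.succ * Y1 y i ^ (n + 2)) +
            x (Fin.last (n + 2)) * t ^ (n + 2)) := by
          linear_combination h2
        show x 1 ∈ K1
        rw [h3]
        refine K1.neg_mem (K1.add_mem (K1.sum_mem fun i _ => K1.mul_mem (hK01 _ (hxK _))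
          (pow_mem (hK01 _ (hyK i)) _)) (K1.mul_mem (hK01 _ (hxK (Fin.last n)))
          (IntermediateField.mem_adjoin_simple_self _ _)))
      | succ i => exact hK01 _ (hxK i)
    · exact hK01 _ (hyK i)
  exact h1 htB


/-- linear independence of the monomials over the function field of `Z` -/
lemma li [Fact (n + 2).Prime] [CharP k (n + 2)] (h : EDat n k E x y) :
    LinearIndepOn (FZ k x) (vv (Y1 y) (y (Fin.last (n + 2)))) {a | a.2 < n + 2} := by
  have hE : CharP E (n + 2) := charP_of_injective_algebraMap (algebraMap k E).injective (n + 2)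
  set F := FZ k x with hF
  set t := y (Fin.last (n + 2)) with ht
  -- algebraic independence of the `y_i` over `F`
  have hai : AlgebraicIndependent F (Y1 y) := by
    have h1 := (AlgebraicIndependent.sumElim_iff.mp (ai h)).2
    rw [← IntermediateField.algebraicIndependent_adjoin_iff] at h1
    set L := IntermediateField.adjoin k (Set.range (Z1 x)) with hL
    have h2 := h1.algebraicClosure
    have hxL : ∀ i, i ≠ 0 → x i ∈ L := by
      intro i hi
      obtain ⟨j, rfl⟩ := Fin.exists_succ_eq.mpr hi
      exact IntermediateField.subset_adjoin _ _ ⟨j, rfl⟩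
    have hLC : ∀ z ∈ L, z ∈ algebraicClosure L E := fun z hz =>
      mem_algebraicClosure_iff.mpr (isAlgebraic_algebraMap (⟨z, hz⟩ : L))
    have hx : ∀ i, x i ∈ algebraicClosure L E := by
      intro i
      by_cases hi : i = 0
      · subst hi
        rw [mem_algebraicClosure_iff]
        exact IsAlgebraic.of_pow (n := 2 * n + 5) (by omega)
          (mem_algebraicClosure_iff.mp (hLC _ (x0_mem h L hxL)))
      · exact hLC _ (hxL i hi)
    have hFC : F ≤ (algebraicClosure L E).restrictScalars k := by
      rw [hF, FZ, IntermediateField.adjoin_le_iff]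
      rintro _ ⟨i, rfl⟩
      exact (algebraicClosure L E).div_mem (hx i) (hx 0)
    let φ : F →+* algebraicClosure L E :=
      { toFun := fun z => ⟨z.1, hFC z.2⟩
        map_one' := rfl
        map_zero' := rfl
        map_mul' := fun _ _ => rfl
        map_add' := fun _ _ => rfl }
    let _ : Algebra F (algebraicClosure L E) := φ.toAlgebra
    have : IsScalarTower F (algebraicClosure L E) E := IsScalarTower.of_algebraMap_eq fun z => rfl
    exact h2.restrictScalars φ.injective
  -- the field `K`
  set K := IntermediateField.adjoin F (Set.range (Y1 y)) with hK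
  have hYK : ∀ i, Y1 y i ∈ K := fun i => IntermediateField.subset_adjoin _ _ ⟨i, rfl⟩
  have htK : t ∉ K := by
    intro h1
    refine last_notMem h ?_
    have h2 : K.restrictScalars k ≤
        IntermediateField.adjoin k (Set.range x ∪ Set.range (Y1 y)) := by
      rw [hK, hF, FZ, IntermediateField.adjoin_adjoin_left, IntermediateField.adjoin_le_iff]
      rintro _ (⟨i, rfl⟩ | ⟨i, rfl⟩)
      · exact IntermediateField.div_mem _ (IntermediateField.subset_adjoin _ _ (Or.inl ⟨i, rfl⟩))
          (IntermediateField.subset_adjoin _ _ (Or.inl ⟨0, rfl⟩))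
      · exact IntermediateField.subset_adjoin _ _ (Or.inr ⟨i, rfl⟩)
    exact h2 h1
  have hsK : ∀ i, x i / x 0 ∈ K := fun i =>
    K.algebraMap_mem ⟨x i / x 0, IntermediateField.subset_adjoin _ _ ⟨i, rfl⟩⟩
  have htp : t ^ (n + 2) ∈ K := by
    have h1 := tang' h
    have h0 := h.dat.nx 0
    have hl := h.dat.nx (Fin.last (n + 2))
    have h2 : t ^ (n + 2) = -(x 1 / x 0 + (∑ i : Fin n, x i.castSucc.succ.succ / x 0 *
        Y1 y i ^ (n + 2))) / (x (Fin.last (n + 2)) / x 0) := by
      rw [eq_div_iff (div_ne_zero hl h0)]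
      have h3 : ∑ i : Fin n, x i.castSucc.succ.succ / x 0 * Y1 y i ^ (n + 2) =
          (∑ i : Fin n, x i.castSucc.succ.succ * Y1 y i ^ (n + 2)) / x 0 := by
        rw [Finset.sum_div]
        exact Finset.sum_congr rfl fun i _ => by ring
      rw [h3]
      field_simp
      linear_combination h1
    rw [h2]
    exact K.div_mem (K.neg_mem (K.add_mem (hsK _) (K.sum_mem fun i _ =>
      K.mul_mem (hsK _) (pow_mem (hYK i) _)))) (hsK _)
  have hminpoly : (minpoly K t).natDegree = n + 2 := by
    have hirr : Irreducible (Polynomial.X ^ (n + 2) - Polynomial.C (⟨t ^ (n + 2), htp⟩ : K)) := by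
      refine X_pow_sub_C_irreducible_of_prime Fact.out fun b hb => ?_
      have h1 : (b : E) ^ (n + 2) = t ^ (n + 2) := congrArg (algebraMap K E) hb
      have h2 : (b : E) = t := frobenius_inj E (n + 2) h1
      exact htK (h2 ▸ b.2)
    have h1 := minpoly.eq_of_irreducible_of_monic hirr (x := t) (by
      rw [map_sub, map_pow, Polynomial.aeval_X, Polynomial.aeval_C]
      show t ^ (n + 2) - t ^ (n + 2) = 0
      exact sub_self _) (Polynomial.monic_X_pow_sub_C _ (by omega))
    rw [← h1, Polynomial.natDegree_X_pow_sub_C]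
  have hpow := linearIndependent_pow (K := K) t
  have hmon : LinearIndependent F (fun a : Fin n →₀ ℕ =>
      ((a.prod fun i m => (⟨Y1 y i, hYK i⟩ : K) ^ m : K))) := by
    have h1 := (MvPolynomial.basisMonomials (Fin n) F).linearIndependent
    have h2 : Function.Injective (MvPolynomial.aeval (fun i => (⟨Y1 y i, hYK i⟩ : K)) :
        MvPolynomial (Fin n) F →ₐ[F] K) := by
      have h3 : AlgebraicIndependent F (fun i => (⟨Y1 y i, hYK i⟩ : K)) := by
        have h4 : AlgebraicIndependent F (K.val ∘ fun i => (⟨Y1 y i, hYK i⟩ : K)) := hai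
        exact h4.of_comp K.val
      exact h3
    have h3 := h1.map' (MvPolynomial.aeval (fun i => (⟨Y1 y i, hYK i⟩ : K)) :
      MvPolynomial (Fin n) F →ₐ[F] K).toLinearMap (LinearMap.ker_eq_bot.mpr h2)
    have h4 : (fun a : Fin n →₀ ℕ => ((a.prod fun i m => (⟨Y1 y i, hYK i⟩ : K) ^ m : K))) =
        (MvPolynomial.aeval (fun i => (⟨Y1 y i, hYK i⟩ : K)) :
          MvPolynomial (Fin n) F →ₐ[F] K).toLinearMap ∘ MvPolynomial.basisMonomials (Fin n) F := by
      funext a
      simp [MvPolynomial.coe_basisMonomials, MvPolynomial.aeval_monomial]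
    rw [h4]
    exact h3
  have hprod := linearIndependent_smul hmon hpow
  have hcomp := hprod.comp (fun a : ({a | a.2 < n + 2} : Set ((Fin n →₀ ℕ) × ℕ)) =>
    ((a.1.1, ⟨a.1.2, by rw [hminpoly]; exact a.2⟩) :
      (Fin n →₀ ℕ) × Fin (minpoly K t).natDegree)) (by
    intro a b hab
    simp only [Prod.mk.injEq, Fin.mk.injEq] at hab
    exact Subtype.ext (Prod.ext hab.1 hab.2))
  unfold LinearIndepOn
  convert hcomp using 1
  funext a
  simp only [Function.comp, vv]
  rw [Algebra.smul_def]
  congr 1
  rw [Finsupp.prod, Finsupp.prod, map_prod]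
  exact Finset.prod_congr rfl fun i _ => rfl


theorem main : S_FIB := by
  intro n k E _ _ _ _ _ _ x y hn h e h1 h2
  have hE : CharP E (n + 2) := charP_of_injective_algebraMap (algebraMap k E).injective (n + 2)
  set F := FZ k x with hF
  set t := y (Fin.last (n + 2)) with ht
  have hsF : ∀ i, x i / x 0 ∈ F := fun i => IntermediateField.subset_adjoin _ _ ⟨i, rfl⟩
  set s : Fin (n + 3) → F := fun i => ⟨x i / x 0, hsF i⟩ with hs
  have h0 := h.dat.nx 0
  have hl := h.dat.nx (Fin.last (n + 2))
  have hs0 : s (Fin.last (n + 2)) ≠ 0 := by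
    intro h3
    exact div_ne_zero hl h0 (congrArg (algebraMap F E) h3)
  have htp : t ^ (n + 2) = algebraMap F E (-s 1 / s (Fin.last (n + 2))) +
      ∑ i : Fin n, algebraMap F E (-s i.castSucc.succ.succ / s (Fin.last (n + 2))) *
        Y1 y i ^ (n + 2) := by
    have h3 := tang' h
    have h4 : ∀ i, algebraMap F E (-s i / s (Fin.last (n + 2))) = -x i / x (Fin.last (n + 2)) := by
      intro i
      rw [map_div₀, map_neg]
      show -(x i / x 0) / (x (Fin.last (n + 2)) / x 0) = _
      field_simp
    simp only [h4]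
    have h5 : ∑ i : Fin n, -x i.castSucc.succ.succ / x (Fin.last (n + 2)) * Y1 y i ^ (n + 2) =
        -(∑ i : Fin n, x i.castSucc.succ.succ * Y1 y i ^ (n + 2)) / x (Fin.last (n + 2)) := by
      rw [← Finset.sum_neg_distrib, Finset.sum_div]
      exact Finset.sum_congr rfl fun i _ => by ring
    rw [h5]
    field_simp
    linear_combination h3
  have hY2 : Y1 y ⟨0, hn⟩ = y 2 := rfl
  have hY : Y1 y ⟨0, hn⟩ ≠ 0 := by
    rw [hY2]
    intro h3
    have h4 := h.dat.nu 0 2 (by
      intro h5
      have := congrArg Fin.val h5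
      have h7 : (2 : Fin (n + 3)).val = 2 % (n + 3) := rfl
      rw [h7, Nat.mod_eq_of_lt (by omega)] at this
      exact absurd this (by simp))
    apply h4
    unfold uu
    rw [h3, h.y0]
    ring
  have hW : ∀ g ∈ Set.range y, g ∈ WW F (n + 2) (Y1 y) t 1 := by
    rintro _ ⟨i, rfl⟩
    refine ycases h (fun z => z ∈ WW F (n + 2) (Y1 y) t 1) (Submodule.zero_mem _) ?_ ?_ ?_ i
    · have := vv_mem (p := n + 2) (by omega) (Y1 y) t _ _ htp 1 0 0 le_rfl (by simp)
      rwa [vv_zero] at this
    · intro j
      have := vv_mem (p := n + 2) (by omega) (Y1 y) t _ _ htp 1 0 (Finsupp.single j 1, 0) le_rfl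
        (by simp)
      simpa [vv] using this
    · have := vv_mem (p := n + 2) (by omega) (Y1 y) t _ _ htp 1 1 (0, 1) le_rfl
        (by simp)
      simpa [vv] using this
  have h3 := core hn (p := n + 2) (by omega) (Y1 y) t _ _ htp hY (li h) (Set.range y) hW e h1 (by
    rw [hY2, ← Set.range_comp]
    exact h2)
  obtain ⟨f, rfl⟩ := h3
  exact f.2

end

end Pool.Agent.W929.CB.Fib
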