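import Pool.Agent.W525.CB.Stm

/-!
# Functions that are regular on two charts of a hypersurface are constant
-/

namespace Pool.Agent.W929.CB.Fib

section core

variable {F E : Type} [Field F] [Field E] [Algebra F E] {n : ℕ}

/-- monomials -/
noncomputable def vv (Y : Fin n → E) (t : E) (a : (Fin n →₀ ℕ) × ℕ) : E :=
  (a.1.prod fun i m => Y i ^ m) * t ^ a.2

lemma vv_add (Y : Fin n → E) (t : E) (a b : (Fin n →₀ ℕ) × ℕ) :
    vv Y t (a + b) = vv Y t a * vv Y t b := by
  unfold vv
  rw [Prod.fst_add, Prod.snd_add, Finsupp.prod_add_index' (fun _ => pow_zero _)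
    (fun i m m' => pow_add _ _ _), pow_add]
  ring

lemma vv_zero (Y : Fin n → E) (t : E) : vv Y t 0 = 1 := by
  simp [vv]

/-- elements of degree at most `N` -/
noncomputable def WW (F : Type) {E : Type} [Field F] [Field E] [Algebra F E] {n : ℕ} (p : ℕ)
    (Y : Fin n → E) (t : E) (N : ℕ) : Submodule F E :=
  Submodule.span F (vv Y t '' {a | a.2 < p ∧ a.1.degree + a.2 ≤ N})

lemma WW_mono {p : ℕ} (Y : Fin n → E) (t : E) {N M : ℕ} (h : N ≤ M) :
    WW F p Y t N ≤ WW F p Y t M :=
  Submodule.span_mono (Set.image_mono fun _ ha => ⟨ha.1, ha.2.trans h⟩)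

lemma vv_mem {p : ℕ} (hp : 0 < p) (Y : Fin n → E) (t : E) (c0 : F) (c : Fin n → F)
    (ht : t ^ p = algebraMap F E c0 + ∑ i, algebraMap F E (c i) * Y i ^ p) (N : ℕ) :
    ∀ (m : ℕ) (a : (Fin n →₀ ℕ) × ℕ), a.2 ≤ m → a.1.degree + a.2 ≤ N → vv Y t a ∈ WW F p Y t N := by
  intro m
  induction m with
  | zero =>
    intro a ha hN
    exact Submodule.subset_span ⟨a, ⟨by omega, hN⟩, rfl⟩
  | succ m ih =>
    intro a ha hN
    by_cases hap : a.2 < p
    · exact Submodule.subset_span ⟨a, ⟨hap, hN⟩, rfl⟩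
    · have h1 : vv Y t a = c0 • vv Y t (a.1, a.2 - p) +
          ∑ i, c i • vv Y t (a.1 + Finsupp.single i p, a.2 - p) := by
        have h2 : t ^ a.2 = t ^ (a.2 - p) * t ^ p := by
          rw [← pow_add]
          congr 1
          omega
        simp only [vv, Algebra.smul_def]
        rw [h2, ht]
        have h3 : ∀ i : Fin n, ((a.1 + Finsupp.single i p).prod fun i m => Y i ^ m) =
            (a.1.prod fun i m => Y i ^ m) * Y i ^ p := by
          intro i
          rw [Finsupp.prod_add_index' (fun _ => pow_zero _) (fun i m m' => pow_add _ _ _)]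
          congr 1
          exact Finsupp.prod_single_index (h := fun i m => Y i ^ m) (pow_zero _)
        simp only [h3]
        rw [mul_add, mul_add, Finset.mul_sum, Finset.mul_sum]
        congr 1
        · ring
        · refine Finset.sum_congr rfl fun i _ => ?_
          ring
      rw [h1]
      refine Submodule.add_mem _ (Submodule.smul_mem _ _ (ih _ ?_ ?_))
        (Submodule.sum_mem _ fun i _ => Submodule.smul_mem _ _ (ih _ ?_ ?_))
      · show a.2 - p ≤ m
        omega
      · show a.1.degree + (a.2 - p) ≤ N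
        omega
      · show a.2 - p ≤ m
        omega
      · show (a.1 + Finsupp.single i p).degree + (a.2 - p) ≤ N
        rw [map_add, Finsupp.degree_single]
        omega

lemma WW_mul {p : ℕ} (hp : 0 < p) (Y : Fin n → E) (t : E) (c0 : F) (c : Fin n → F)
    (ht : t ^ p = algebraMap F E c0 + ∑ i, algebraMap F E (c i) * Y i ^ p) {N M : ℕ}
    {e f : E} (he : e ∈ WW F p Y t N) (hf : f ∈ WW F p Y t M) : e * f ∈ WW F p Y t (N + M) := by
  have h1 : e * f ∈ WW F p Y t N * WW F p Y t M := Submodule.mul_mem_mul he hf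
  unfold WW at h1
  rw [Submodule.span_mul_span] at h1
  refine (Submodule.span_le.mpr ?_) h1
  rintro _ ⟨_, ⟨a, ha, rfl⟩, _, ⟨b, hb, rfl⟩, rfl⟩
  show vv Y t a * vv Y t b ∈ WW F p Y t (N + M)
  rw [← vv_add]
  refine vv_mem hp Y t c0 c ht _ _ _ le_rfl ?_
  rw [Prod.fst_add, Prod.snd_add, map_add]
  have := ha.2
  have := hb.2
  omega

theorem core {p : ℕ} (hn : 0 < n) (hp : 0 < p) (Y : Fin n → E) (t : E) (c0 : F) (c : Fin n → F)
    (ht : t ^ p = algebraMap F E c0 + ∑ i, algebraMap F E (c i) * Y i ^ p)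
    (hY : Y ⟨0, hn⟩ ≠ 0)
    (hli : LinearIndepOn F (vv Y t) {a | a.2 < p}) (G : Set E) (hG : ∀ g ∈ G, g ∈ WW F p Y t 1)
    (e : E) (h1 : e ∈ Algebra.adjoin F G)
    (h2 : e ∈ Algebra.adjoin F ((fun g => g / Y ⟨0, hn⟩) '' G)) :
    e ∈ Set.range (algebraMap F E) := by
  set y2 := Y ⟨0, hn⟩ with hy2
  have hone : (1 : E) ∈ WW F p Y t 0 := by
    have := vv_mem hp Y t c0 c ht 0 0 0 le_rfl (by simp)
    rwa [vv_zero] at this
  have hy2mem : ∀ m, y2 ^ m ∈ WW F p Y t m := by
    intro m
    have := vv_mem hp Y t c0 c ht m 0 (Finsupp.single ⟨0, hn⟩ m, 0) le_rfl (by simp)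
    simpa [vv, hy2] using this
  have hA : ∃ N, e ∈ WW F p Y t N := by
    clear h2
    induction h1 using Algebra.adjoin_induction with
    | mem g hg => exact ⟨1, hG g hg⟩
    | algebraMap r =>
      refine ⟨0, ?_⟩
      rw [Algebra.algebraMap_eq_smul_one]
      exact Submodule.smul_mem _ _ hone
    | add u v _ _ hu hv =>
      obtain ⟨N, hu⟩ := hu
      obtain ⟨M, hv⟩ := hv
      exact ⟨N + M, Submodule.add_mem _ (WW_mono Y t (by omega) hu) (WW_mono Y t (by omega) hv)⟩
    | mul u v _ _ hu hv =>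
      obtain ⟨N, hu⟩ := hu
      obtain ⟨M, hv⟩ := hv
      exact ⟨N + M, WW_mul hp Y t c0 c ht hu hv⟩
  have hB : ∃ N, e * y2 ^ N ∈ WW F p Y t N := by
    clear h1 hA
    induction h2 using Algebra.adjoin_induction with
    | mem g hg =>
      obtain ⟨g, hg, rfl⟩ := hg
      refine ⟨1, ?_⟩
      show g / y2 * y2 ^ 1 ∈ _
      rw [pow_one, div_mul_cancel₀ _ hY]
      exact hG g hg
    | algebraMap r =>
      refine ⟨0, ?_⟩
      rw [Algebra.algebraMap_eq_smul_one, pow_zero, mul_one]
      exact Submodule.smul_mem _ _ hone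
    | add u v _ _ hu hv =>
      obtain ⟨N, hu⟩ := hu
      obtain ⟨M, hv⟩ := hv
      refine ⟨N + M, ?_⟩
      have h3 : (u + v) * y2 ^ (N + M) = u * y2 ^ N * y2 ^ M + v * y2 ^ M * y2 ^ N := by
        rw [pow_add]
        ring
      rw [h3]
      refine Submodule.add_mem _ (WW_mul hp Y t c0 c ht hu (hy2mem M)) ?_
      have := WW_mul hp Y t c0 c ht hv (hy2mem N)
      rwa [add_comm M N] at this
    | mul u v _ _ hu hv =>
      obtain ⟨N, hu⟩ := hu
      obtain ⟨M, hv⟩ := hv
      refine ⟨N + M, ?_⟩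
      have h3 : (u * v) * y2 ^ (N + M) = (u * y2 ^ N) * (v * y2 ^ M) := by
        rw [pow_add]
        ring
      rw [h3]
      exact WW_mul hp Y t c0 c ht hu hv
  obtain ⟨M, hM⟩ := hA
  obtain ⟨N, hN⟩ := hB
  unfold WW at hM hN
  rw [Finsupp.mem_span_image_iff_linearCombination] at hM hN
  obtain ⟨l, hl, hle⟩ := hM
  obtain ⟨l', hl', hle'⟩ := hN
  rw [Finsupp.mem_supported] at hl hl'
  set δ : (Fin n →₀ ℕ) × ℕ := (Finsupp.single ⟨0, hn⟩ N, 0) with hδ
  have hinj : Function.Injective (fun a : (Fin n →₀ ℕ) × ℕ => a + δ) := add_left_injective δ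
  have h3 : Finsupp.linearCombination F (vv Y t) (l.mapDomain (fun a => a + δ)) = e * y2 ^ N := by
    rw [Finsupp.linearCombination_mapDomain, ← hle, Finsupp.linearCombination_apply,
      Finsupp.linearCombination_apply, Finsupp.sum_mul]
    refine Finsupp.sum_congr fun a _ => ?_
    simp only [Function.comp]
    rw [vv_add]
    have h4 : vv Y t δ = y2 ^ N := by
      simp [vv, hδ, hy2]
    rw [h4, smul_mul_assoc]
  have h4 : l.mapDomain (fun a => a + δ) = l' := by
    have h5 := (linearIndepOn_iff.mp hli) (l.mapDomain (fun a => a + δ) - l') ?_ ?_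
    · exact sub_eq_zero.mp h5
    · refine Submodule.sub_mem _ ?_ ?_
      · rw [Finsupp.mem_supported]
        intro a ha
        have h6 := Finsupp.mapDomain_support (by exact_mod_cast ha)
        rw [Finset.mem_image] at h6
        obtain ⟨b, hb, rfl⟩ := h6
        have := (hl (by exact_mod_cast hb)).1
        show b.2 + 0 < p
        simpa using this
      · rw [Finsupp.mem_supported]
        intro a ha
        exact (hl' ha).1
    · rw [map_sub, h3, hle', sub_self]
  have h5 : ∀ a ∈ l.support, a = 0 := by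
    intro a ha
    have h6 : l' (a + δ) ≠ 0 := by
      rw [← h4, Finsupp.mapDomain_apply hinj]
      exact Finsupp.mem_support_iff.mp ha
    have h7 := (hl' (by exact_mod_cast Finsupp.mem_support_iff.mpr h6)).2
    rw [Prod.fst_add, Prod.snd_add, map_add] at h7
    simp only [hδ, Finsupp.degree_single] at h7
    have h8 : a.1.degree = 0 := by omega
    have h9 : a.2 = 0 := by omega
    rw [Finsupp.degree_eq_zero_iff] at h8
    exact Prod.ext h8 h9
  have h6 : l = Finsupp.single 0 (l 0) := by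
    ext a
    by_cases ha : a = 0
    · subst ha
      simp
    · rw [Finsupp.single_apply, if_neg (Ne.symm ha)]
      by_contra hne
      exact ha (h5 a (Finsupp.mem_support_iff.mpr hne))
  refine ⟨l 0, ?_⟩
  rw [← hle, h6, Finsupp.linearCombination_single, vv_zero]
  simp [Algebra.algebraMap_eq_smul_one]

end core

end Pool.Agent.W929.CB.Fib
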